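import Pool.Agent.Y152.RP.Fam
import Pool.Agent.V11322.ZF.Core

/-!
Families of subvarieties of `Y(1)^n` and sets `P` of algebraic parameters, with `m + 2` places: from the
arithmetic of the parameters to the absence of atypical intersections (the proof is that of
`Y152.RP.Fam.family`, with the local criterion `V11322.ZF.coreF`).
-/

set_option autoImplicit false

namespace Pool.Agent.V1138.FP

open H294ZP UpperHalfPlane MvPolynomial Pool.Agent.W282.ZP Pool.Agent.Y152.BD
open Pool.Agent.Y152.RP.Fam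

/-- The exponents at the `M` degenerate members are positive and independent on polygons: if `U` is a
nonempty set of degenerate members and `i l ≠ j l` are coordinates for `l ∈ U` such that every
coordinate occurs an even number of times among them, then the product of the
`q l * e l (i l) * e l (j l)` over `U` is not a square, for all numbers `1 ≤ q l ≤ T ^ 4`. -/
def IndependentOnPolygons {n M : ℕ} (T : ℕ) (e : Fin M → Fin n → ℕ) : Prop :=
  (∀ l i, 0 < e l i) ∧ ∀ U : Finset (Fin M), U.Nonempty → ∀ (i j : Fin M → Fin n) (q : Fin M → ℕ),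
    (∀ l ∈ U, i l ≠ j l ∧ 0 < q l ∧ q l ≤ T ^ 4) →
    (∀ v, Even ((U.filter fun l => i l = v).card + (U.filter fun l => j l = v).card)) →
    ¬ IsSquare (∏ l ∈ U, q l * (e l (i l) * e l (j l)))

theorem cyc_comp {n L M B : ℕ} {e : Fin M → Fin n → ℕ} (he : Pool.Agent.V11322.ZF.Cyc B e)
    (f : Fin L → Fin M) (hf : Function.Injective f) :
    Pool.Agent.V11322.ZF.Cyc B fun l => e (f l) := by
  classical
  intro U hU i j t h1 h2
  obtain ⟨l₀, hl₀⟩ := hU
  have hi : ∀ l, Function.extend f i (fun _ => i l₀) (f l) = i l := fun l => hf.extend_apply _ _ _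
  have hj : ∀ l, Function.extend f j (fun _ => j l₀) (f l) = j l := fun l => hf.extend_apply _ _ _
  have ht : ∀ l, Function.extend f t (fun _ => t l₀) (f l) = t l := fun l => hf.extend_apply _ _ _
  have h3 := he (U.map ⟨f, hf⟩) ⟨f l₀, Finset.mem_map_of_mem _ hl₀⟩
    (Function.extend f i fun _ => i l₀) (Function.extend f j fun _ => j l₀)
    (Function.extend f t fun _ => t l₀)
    (fun l hl => by
      obtain ⟨l', hl', rfl⟩ := Finset.mem_map.1 hl
      simp only [Function.Embedding.coeFn_mk]
      rw [hi, hj, ht]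
      exact h1 l' hl')
    (fun v => by
      rw [Finset.filter_map, Finset.filter_map, Finset.card_map, Finset.card_map]
      have e1 : (U.filter ((fun l => Function.extend f i (fun _ => i l₀) l = v) ∘ f)) =
          U.filter fun l => i l = v := by
        refine Finset.filter_congr fun l _ => ?_
        rw [Function.comp_apply, hi]
      have e2 : (U.filter ((fun l => Function.extend f j (fun _ => j l₀) l = v) ∘ f)) =
          U.filter fun l => j l = v := by
        refine Finset.filter_congr fun l _ => ?_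
        rw [Function.comp_apply, hj]
      simp only [Function.Embedding.coeFn_mk]
      rw [e1, e2]
      exact h2 v)
  rw [Finset.prod_map] at h3
  simp only [Function.Embedding.coeFn_mk, hi, hj, ht] at h3
  exact h3

/-- One-parameter families which degenerate at sufficiently many rational parameters, and the members
with parameter in `P`; `m + 2` places. -/
theorem few (K : Subfield ℂ) [Countable K] (κ : Type) [Finite κ] (N n m M T : ℕ)
    (G : κ → MvPolynomial (Fin (N + 1)) (Polynomial K)) (hG : ∀ k, ∃ e, (G k).IsHomogeneous e)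
    (A B : Fin n → MvPolynomial (Fin (N + 1)) (Polynomial K)) (δ : Fin n → ℕ)
    (hA : ∀ i, (A i).IsHomogeneous (δ i)) (hB : ∀ i, (B i).IsHomogeneous (δ i))
    (R : Fin n → Polynomial (Polynomial K)) (hR : ∀ i, (R i).Monic)
    (hT : ∀ i u w, ((R i).coeff u).coeff w ≠ 0 → u ≤ T ∧ w ≤ T)
    (c : Fin n → Polynomial K) (α : Fin M → ℚ)
    (hind : IndependentOnPolygons T fun l i => (c i).rootMultiplicity ((α l : ℚ) : K))
    (hpos : ∀ l, InGeneralPosition ((α l : ℚ) : ℂ) m G A B) (Γ : Finset ℂ)
    (hΓ : ∀ γ ∈ Γ, γ ∈ K) (P : Set ℂ) (hP : ∀ t ∈ P, IsAlgebraic ℤ t)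
    (hM : m + 2 ≤ M) (hmany : ManyPrimes P (m + 2) α) :
      {t : ℂ | t ∈ P ∧ ¬ NoAtypical (algebraMap (Algebra.adjoin ℤ (Γ : Set ℂ)) ℂ) K m
        (scaledImage t G A B R c)}.Finite := by
  classical
  let k := algebraicClosure K ℂ
  have hcl : IsAlgClosure K k := inferInstance
  have hac : IsAlgClosed k := hcl.isAlgClosed
  let φ : Polynomial K →+* Polynomial k := Polynomial.mapRingHom (algebraMap K k)
  have hcast : ∀ t : ℚ, algebraMap k ℂ ((t : ℚ) : k) = (t : ℂ) := fun t => map_ratCast _ t
  have hev : ∀ (t : k), (algebraMap k ℂ).comp ((Polynomial.evalRingHom t).comp φ) =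
      evalAt K (algebraMap k ℂ t) := by
    intro t
    refine Polynomial.ringHom_ext (fun a => ?_) ?_
    · simp only [φ, evalAt, RingHom.comp_apply, Polynomial.coe_mapRingHom, Polynomial.map_C,
        Polynomial.coe_evalRingHom, Polynomial.eval_C, AlgHom.toRingHom_eq_coe, RingHom.coe_coe,
        Polynomial.aeval_C]
      rfl
    · simp only [φ, evalAt, RingHom.comp_apply, Polynomial.coe_mapRingHom, Polynomial.map_X,
        Polynomial.coe_evalRingHom, Polynomial.eval_X, AlgHom.toRingHom_eq_coe, RingHom.coe_coe,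
        Polynomial.aeval_X]
  have hspec : ∀ (t : k) (P : MvPolynomial (Fin (N + 1)) (Polynomial K)) (y : Fin (N + 1) → ℂ),
      aeval y (TH526.ZL.spec t (MvPolynomial.map φ P)) =
        eval₂ (evalAt K (algebraMap k ℂ t)) y P := by
    intro t P y
    rw [TH526.ZL.spec, MvPolynomial.map_map, aeval_def, eval₂_map, hev]
  have hmult : ∀ (l : Fin M) (i : Fin n), (φ (c i)).rootMultiplicity ((α l : ℚ) : k) =
      (c i).rootMultiplicity ((α l : ℚ) : K) := by
    intro l i
    have h1 := Polynomial.eq_rootMultiplicity_map (p := c i) (f := algebraMap K k)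
      (algebraMap K k).injective ((α l : ℚ) : K)
    rw [map_ratCast] at h1
    exact h1.symm
  let Γ' : Set k := (fun γ : Γ => algebraMap K k ⟨γ, hΓ γ γ.2⟩) '' Set.univ
  have hΓ' : algebraMap k ℂ '' Γ' = (Γ : Set ℂ) := by
    ext z
    constructor
    · rintro ⟨_, ⟨g, -, rfl⟩, rfl⟩
      exact g.2
    · intro hz
      exact ⟨_, ⟨⟨z, hz⟩, trivial, rfl⟩, rfl⟩
  by_cases hn : M = 0
  · subst hn
    omega
  have hM0 : 0 < M := Nat.pos_of_ne_zero hn
  have hc0 : ∀ i, φ (c i) ≠ 0 := by
    intro i h0
    have h1 : 0 < (c i).rootMultiplicity ((α ⟨0, hM0⟩ : ℚ) : K) := hind.1 ⟨0, hM0⟩ i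
    rw [← hmult, h0, Polynomial.rootMultiplicity_zero] at h1
    exact lt_irrefl _ h1
  obtain ⟨W, hW, hΓW, hnear⟩ := nearV (k := k) (m := m) (M := M)
    (fun i => MvPolynomial.map φ (G i))
    (fun i => by
      obtain ⟨e, he⟩ := hG i
      exact ⟨e, he.map _⟩)
    (fun i => MvPolynomial.map φ (A i)) (fun i => MvPolynomial.map φ (B i)) δ
    (fun i => (hA i).map _) (fun i => (hB i).map _)
    (fun i => (R i).map φ) (fun i => φ (c i)) (fun l => ((α l : ℚ) : k)) hc0
    (fun l I hI y h1 h2 => by
      by_contra h0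
      obtain ⟨i, hi, h3⟩ := hpos l I hI y ⟨h0, fun i => by
        have h4 := h1 i
        rw [hspec, hcast] at h4
        exact h4⟩
      apply h3
      have h4 := h2 i hi
      rw [hspec, hspec, hcast] at h4
      exact h4)
    Γ' (Set.toFinite _)
  have hRk : ∀ i, ((R i).map φ).Monic := fun i => (hR i).map _
  have hTk : ∀ i u w, (((R i).map φ).coeff u).coeff w ≠ 0 → u ≤ T ∧ w ≤ T := by
    intro i u w h0
    rw [Polynomial.coeff_map] at h0
    change ((Polynomial.mapRingHom (algebraMap K k)) ((R i).coeff u)).coeff w ≠ 0 at h0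
    rw [Polynomial.coe_mapRingHom, Polynomial.coeff_map] at h0
    exact hT i u w fun h1 => h0 (by rw [h1, map_zero])
  -- the parameter as an element of `k`
  have hk : ∀ t : ℂ, t ∈ P → ∃ t' : k, algebraMap k ℂ t' = t := by
    intro t ht
    have h1 : IsAlgebraic ℤ t := hP t ht
    have h2 : IsAlgebraic K t := h1.extendScalars (Int.cast_injective (α := K))
    exact ⟨⟨t, mem_algebraicClosure_iff.2 h2⟩, rfl⟩
  -- the relations at a point
  have hdata : ∀ (t' : k) (r : ℕ)
      (Z : SpecialVariety (algebraMap (Algebra.adjoin ℤ (Γ : Set ℂ)) ℂ) n r) (x s : Fin n → ℂ)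
      (y : Fin (N + 1) → ℂ), x ∈ Z.locus → OnB (algebraMap k ℂ t') G y →
      (∀ i, valueAt (R i) (s i) (x i) = 0 ∧
        evalAt K (algebraMap k ℂ t') (c i) * eval₂ (evalAt K (algebraMap k ℂ t')) y (B i) * s i =
          eval₂ (evalAt K (algebraMap k ℂ t')) y (A i)) →
      (∀ i, Z.cls i = none → IsIntegral (Algebra.adjoin ℤ (algebraMap k ℂ '' Γ')) (x i)) ∧
      (∀ i, Polynomial.eval₂ (Polynomial.aeval (x i) : Polynomial k →ₐ[k] ℂ).toRingHom (s i)
        ((R i).map φ) = 0) ∧
      (∀ i, aeval y (TH526.ZL.spec t' (MvPolynomial.map φ (G i))) = 0) ∧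
      (∀ i, algebraMap k ℂ ((φ (c i)).eval t') *
        aeval y (TH526.ZL.spec t' (MvPolynomial.map φ (B i))) * s i =
        aeval y (TH526.ZL.spec t' (MvPolynomial.map φ (A i)))) := by
    intro t' r Z x s y hxZ hy hxy
    refine ⟨fun i hi => ?_, fun i => ?_, fun i => ?_, fun i => ?_⟩
    · obtain ⟨z, hz⟩ := hxZ
      rw [hΓ', (hz i).1 hi]
      rcases Z.allowed i with ⟨τ, hτ, hc⟩ | h
      · rw [hc]
        exact (singular_modulus_integral τ hτ).tower_top
      · exact h
    · rw [Polynomial.eval₂_map]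
      have h1 : ((Polynomial.aeval (x i) : Polynomial k →ₐ[k] ℂ).toRingHom).comp φ =
          (Polynomial.aeval (x i) : Polynomial K →ₐ[K] ℂ).toRingHom := by
        ext z
        · simp [φ]
        · simp [φ]
      rw [h1]
      exact (hxy i).1
    · rw [hspec]
      exact hy.2 i
    · rw [hspec, hspec]
      have h1 : algebraMap k ℂ ((φ (c i)).eval t') = evalAt K (algebraMap k ℂ t') (c i) := by
        rw [← hev t']
        rfl
      rw [h1]
      exact (hxy i).2
  have hΓV : ∀ V : ValuationSubring ℂ, (∀ z ∈ W, algebraMap k ℂ z ∈ V) →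
      ∀ z ∈ Γ', algebraMap k ℂ z ∈ V := fun V hV z hz => hV z (hΓW hz)
  obtain ⟨D, hD⟩ := exists_places (k := k) (L := m + 2) W hW α
  refine (hmany D).subset ?_
  rintro t ⟨htd, ht⟩
  refine ⟨htd, ?_⟩
  rintro ⟨f, hf, F, hF, hFt, hp⟩
  obtain ⟨t', rfl⟩ := hk t htd
  apply ht
  intro r Z
  have hpt : ∀ x ∈ scaledImage (algebraMap k ℂ t') G A B R c ∩ Z.locus, ∀ S : Finset (Fin n),
      AlgebraicIndependent K (fun i : S => x i) → S.card + n ≤ r + m := by
    rintro x ⟨⟨y, hy, s, hxy⟩, hxZ⟩ S hS
    have hSk : AlgebraicIndependent k (fun i : S => x i) := hS.extendScalars k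
    choose V hV1 hVW hVx using hD t' f F hF hFt hp S _ hSk
    obtain ⟨h1, h2, h3, h4⟩ := hdata t' r Z x s y hxZ hy hxy
    refine Pool.Agent.V11322.ZF.coreF (m := m) (T := T) (fun i => (R i).map φ) hRk hTk
      (fun l i => (φ (c i)).rootMultiplicity ((α (f l) : ℚ) : k))
      (fun l i => by
        rw [hmult]
        exact hind.1 (f l) i)
      (by
        have h5 : Pool.Agent.V11322.ZF.Cyc (T ^ 4) (fun (l : Fin (m + 2)) (i : Fin n) =>
            (c i).rootMultiplicity ((α (f l) : ℚ) : K)) :=
          cyc_comp (e := fun l i => (c i).rootMultiplicity ((α l : ℚ) : K)) hind.2 f hf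
        have h6 : (fun (l : Fin (m + 2)) (i : Fin n) =>
            (φ (c i)).rootMultiplicity ((α (f l) : ℚ) : k)) =
            fun l i => (c i).rootMultiplicity ((α (f l) : ℚ) : K) := by
          funext l i
          exact hmult (f l) i
        rw [h6]
        exact h5)
      Z.cls (fun i => (Z.mat i).det.toNat) x s
      (fun i => by
        have := Z.det_pos i
        omega)
      (fun i hi => alg_of_int Γ' (h1 i hi)) (fun i j l hi hj => by
        have h5 := rel_of_locus Z hxZ i j l hi hj
        rw [Int.toNat_mul (Z.det_pos i).le (Z.det_pos j).le] at h5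
        exact h5)
      h2 S hSk V
      (fun l => (V l).valuation (algebraMap k ℂ (t' - ((α (f l) : ℚ) : k)))) hV1
      (fun l i hi => v_le_of_int Γ' (V l) (hΓV _ (hVW l)) (h1 i hi))
      (fun l => (hnear (V l) (hVW l)).1) hVx
      (fun l => (hnear (V l) (hVW l)).2 (f l) t' (hV1 l) s y hy.1 h3 h4)
  refine ⟨?_, hpt⟩
  intro A' hA' hcl' hprime
  obtain ⟨x, hxW, T', hT', hdim⟩ := Pool.Agent.W466.ZC.generic_dim K A' hprime hcl'
  have h2 := hpt x (hA' hxW) T' hT'
  calc zdim A' + (n : Cardinal) ≤ (T'.card : Cardinal) + (n : Cardinal) := by gcongr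
    _ = ((T'.card + n : ℕ) : Cardinal) := by push_cast; rfl
    _ ≤ ((r + m : ℕ) : Cardinal) := by exact_mod_cast h2
    _ = (r : Cardinal) + (m : Cardinal) := by push_cast; rfl

end Pool.Agent.V1138.FP
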