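import Pool.Agent.V1138.FP.Fam

/-!
Families of curves in `Y(1)^n` with three places.
-/

set_option autoImplicit false

namespace Pool.Agent.V1138.FP

open H294ZP UpperHalfPlane MvPolynomial
open Pool.Agent.Y152.RP.Fam

/-- The points of `X` on special subvarieties of codimension at least two (with constant coordinates
which are special points or integral over `Γ`). -/
def atyp (Γ : Finset ℂ) {n : ℕ} (X : Set (Fin n → ℂ)) : Set (Fin n → ℂ) :=
  {x | x ∈ X ∧ ∃ (r : ℕ) (Z : SpecialVariety (algebraMap (Algebra.adjoin ℤ (Γ : Set ℂ)) ℂ) n r),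
    r + 2 ≤ n ∧ x ∈ Z.locus}

/-- One-parameter families of curves which degenerate at sufficiently many rational parameters, and the
members with parameter in `P`; three places. -/
theorem fewCurves (K : Subfield ℂ) [Countable K] (κ : Type) [Finite κ] (N n M T : ℕ)
    (G : κ → MvPolynomial (Fin (N + 1)) (Polynomial K)) (hG : ∀ k, ∃ e, (G k).IsHomogeneous e)
    (A B : Fin n → MvPolynomial (Fin (N + 1)) (Polynomial K)) (δ : Fin n → ℕ)
    (hA : ∀ i, (A i).IsHomogeneous (δ i)) (hB : ∀ i, (B i).IsHomogeneous (δ i))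
    (R : Fin n → Polynomial (Polynomial K)) (hR : ∀ i, (R i).Monic)
    (hT : ∀ i u w, ((R i).coeff u).coeff w ≠ 0 → u ≤ T ∧ w ≤ T)
    (c : Fin n → Polynomial K) (α : Fin M → ℚ)
    (hind : IndependentOnPolygons T fun l i => (c i).rootMultiplicity ((α l : ℚ) : K))
    (hpos : ∀ l, InGeneralPosition ((α l : ℚ) : ℂ) 1 G A B) (Γ : Finset ℂ)
    (hΓ : ∀ γ ∈ Γ, γ ∈ K) (P : Set ℂ) (hP : ∀ t ∈ P, IsAlgebraic ℤ t)
    (hM : 3 ≤ M) (hmany : ManyPrimes P 3 α) :
      {t : ℂ | t ∈ P ∧ atyp Γ (scaledImage t G A B R c) ≠ ∅}.Finite := by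
  refine (few K κ N n 1 M T G hG A B δ hA hB R hR hT c α hind hpos Γ hΓ P hP hM hmany).subset ?_
  rintro t ⟨ht, hne⟩
  refine ⟨ht, fun hno => ?_⟩
  obtain ⟨x, hx, r, Z, hr, hxZ⟩ := Set.nonempty_iff_ne_empty.2 hne
  have h1 := (hno r Z).2 x ⟨hx, hxZ⟩ ∅ (algebraicIndependent_empty_type_iff.2
    (algebraMap K ℂ).injective)
  rw [Finset.card_empty] at h1
  omega

end Pool.Agent.V1138.FP
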