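import Pool.Agent.Results.MP_b15c9e_ag.CurvesThroughPreperiodicPoints
import Pool.Agent.Y152.RP.Fam

/-!
The map `(x, y, z) ↦ (x² + y, y² + z, z² + x)`: curves of starting points through preperiodic points.
-/

set_option autoImplicit false

open Polynomial Pool.Agent.H936R2 Pool.Agent.Y199.DM Pool.Agent.Y152.BD

namespace Pool.Agent.V1138.FP

open Pool.Agent.Results.MP_b15c9e_ag.CurvesThroughPreperiodicPoints (member start near)
open Pool.Agent.Y152.RP.Fam (ManyPrimes)

/-- The map `(x, y, z) ↦ (x² + y, y² + z, z² + x)`. -/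
def phi (P : Fin 3 → ℂ) : Fin 3 → ℂ := ![P 0 ^ 2 + P 1, P 1 ^ 2 + P 2, P 2 ^ 2 + P 0]

/-- Dynamical Mordell-Lang at `P`: for every Zariski-closed subset `V` of `ℂ^3` (the zero set of a set
`S` of polynomials) the set of the `n` with `phi^n (P) ∈ V` is a finite union of arithmetic
progressions `a + k d`, `k ≥ 0` (`d = 0` is allowed). -/
def MordellLangAt (P : Fin 3 → ℂ) : Prop :=
  ∀ S : Set (MvPolynomial (Fin 3) ℂ), ∃ T : Finset (ℕ × ℕ),
    {n : ℕ | ∀ g ∈ S, MvPolynomial.eval (phi^[n] P) g = 0} =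
      {n : ℕ | ∃ q ∈ T, ∃ k : ℕ, n = q.1 * k + q.2}

/-- `P` is preperiodic under `phi`, and the determinant `8 x y z + 1` of the derivative of `phi` does
not vanish at the points of its cycle. -/
def EtalePreperiodicPoint (P : Fin 3 → ℂ) : Prop :=
  ∃ n₀ m : ℕ, 0 < m ∧ phi^[n₀ + m] P = phi^[n₀] P ∧
    ∀ n, n₀ ≤ n → 8 * ((phi^[n] P) 0 * (phi^[n] P) 1 * (phi^[n] P) 2) + 1 ≠ 0

/-- the homogenized map -/
noncomputable def forms : Fin (3 + 1) → MvPolynomial (Fin (3 + 1)) ℂ[X] :=
  ![MvPolynomial.X 0 ^ 2 + MvPolynomial.X 1 * MvPolynomial.X 3,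
    MvPolynomial.X 1 ^ 2 + MvPolynomial.X 2 * MvPolynomial.X 3,
    MvPolynomial.X 2 ^ 2 + MvPolynomial.X 0 * MvPolynomial.X 3,
    MvPolynomial.X 3 ^ 2]

/-- the point of the cone -/
def cone (P : Fin 3 → ℂ) : Fin (3 + 1) → ℂ := ![P 0, P 1, P 2, 1]

theorem forms_hom : ∀ i, (forms i).IsHomogeneous 2 := by
  have hX : ∀ i : Fin (3 + 1), (MvPolynomial.X i ^ 2 : MvPolynomial (Fin (3 + 1)) ℂ[X]).IsHomogeneous 2 :=
    fun i => by simpa using (MvPolynomial.isHomogeneous_X ℂ[X] i).pow 2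
  have hXY : ∀ i j : Fin (3 + 1),
      (MvPolynomial.X i * MvPolynomial.X j : MvPolynomial (Fin (3 + 1)) ℂ[X]).IsHomogeneous 2 :=
    fun i j => (MvPolynomial.isHomogeneous_X ℂ[X] i).mul (MvPolynomial.isHomogeneous_X ℂ[X] j)
  intro i
  fin_cases i
  · exact (hX 0).add (hXY 1 3)
  · exact (hX 1).add (hXY 2 3)
  · exact (hX 2).add (hXY 0 3)
  · exact hX 3

theorem member_forms (t : ℂ) : member forms t =
    ![MvPolynomial.X 0 ^ 2 + MvPolynomial.X 1 * MvPolynomial.X 3,
    MvPolynomial.X 1 ^ 2 + MvPolynomial.X 2 * MvPolynomial.X 3,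
    MvPolynomial.X 2 ^ 2 + MvPolynomial.X 0 * MvPolynomial.X 3,
    MvPolynomial.X 3 ^ 2] := by
  funext i
  fin_cases i <;> simp [member, forms]

theorem pt_cone (t : ℂ) (P : Fin 3 → ℂ) : pt (member forms t) (cone P) = cone (phi P) := by
  rw [member_forms]
  funext i
  fin_cases i <;> simp [pt, cone, phi]

theorem iter_cone (t : ℂ) (P : Fin 3 → ℂ) (n : ℕ) :
    (pt (member forms t))^[n] (cone P) = cone (phi^[n] P) := by
  induction n with
  | zero => rfl
  | succ n ih => rw [Function.iterate_succ_apply', ih, pt_cone, Function.iterate_succ_apply']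

theorem cone_ne (P : Fin 3 → ℂ) : cone P ≠ 0 := by
  intro h
  have h1 := congrFun h 3
  simp [cone] at h1

theorem det_cone (t : ℂ) (P : Fin 3 → ℂ) :
    (Matrix.of fun i j => MvPolynomial.eval (cone P) (MvPolynomial.pderiv j (member forms t i))).det =
      2 * (8 * (P 0 * P 1 * P 2) + 1) := by
  rw [member_forms]
  simp [Matrix.det_succ_row_zero, Fin.sum_univ_succ, cone, MvPolynomial.pderiv_X, Pi.single_apply,
    Fin.succAbove]
  ring

/-- the point `x (t)` of a polynomial curve in `ℂ^3` -/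
noncomputable def point (x : Fin 3 → ℂ[X]) (t : ℂ) : Fin 3 → ℂ := fun i => (x i).eval t

/-- the homogenized curve -/
noncomputable def curve (x : Fin 3 → ℂ[X]) : Fin (3 + 1) → ℂ[X] := ![x 0, x 1, x 2, 1]

theorem start_curve (x : Fin 3 → ℂ[X]) (t : ℂ) : start (curve x) t = cone (point x t) := by
  funext i
  fin_cases i <;> simp [start, curve, cone, point]

theorem etale_cone (t : ℂ) (P : Fin 3 → ℂ) (h : EtalePreperiodicPoint P) :
    EtalePreperiodic (member forms t) (cone P) := by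
  obtain ⟨n₀, m, hm, h1, h2⟩ := h
  refine ⟨fun n => ?_, n₀, m, hm, ⟨1, ?_⟩, fun n hn => ?_⟩
  · rw [iter_cone]
    exact cone_ne _
  · rw [iter_cone, iter_cone, h1, one_smul]
  · rw [iter_cone, det_cone]
    exact mul_ne_zero two_ne_zero (h2 n hn)

theorem dml_cone (t : ℂ) (P : Fin 3 → ℂ) (h : DMLAt (member forms t) (cone P)) :
    MordellLangAt P := by
  intro S
  obtain ⟨T, hT⟩ := h.2 ((MvPolynomial.rename (Fin.castSucc : Fin 3 → Fin (3 + 1))) '' S)
  refine ⟨T, ?_⟩
  rw [← hT]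
  ext n
  have h1 : ∀ g : MvPolynomial (Fin 3) ℂ,
      MvPolynomial.eval ((pt (member forms t))^[n] (cone P))
        (MvPolynomial.rename (Fin.castSucc : Fin 3 → Fin (3 + 1)) g) =
      MvPolynomial.eval (phi^[n] P) g := by
    intro g
    have h0 : cone (phi^[n] P) ∘ (Fin.castSucc : Fin 3 → Fin (3 + 1)) = phi^[n] P := by
      funext i
      fin_cases i <;> rfl
    rw [iter_cone, MvPolynomial.eval_rename, h0]
  constructor
  · rintro hn _ ⟨g, hg, rfl⟩
    rw [h1]
    exact hn g hg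
  · intro hn g hg
    rw [← h1]
    exact hn _ ⟨g, hg, rfl⟩

/-- Dynamical Mordell-Lang for all but finitely many points, with parameters in `P`, of a polynomial
curve through étale preperiodic points. -/
theorem phi_family (P : Set ℂ) {M : ℕ} (α : Fin M → ℚ) (hmany : ManyPrimes P 1 α)
    (x : Fin 3 → ℂ[X]) (hx : ∀ l, EtalePreperiodicPoint (point x (α l))) :
    {t : ℂ | t ∈ P ∧ ¬ MordellLangAt (point x t)}.Finite := by
  classical
  have hx' : ∀ l, EtalePreperiodic (member forms (α l)) (start (curve x) (α l)) := by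
    intro l
    rw [start_curve]
    exact etale_cone _ _ (hx l)
  choose u huK hu using fun l => near forms forms_hom (curve x) (α l) (hx' l)
  choose D hD using fun l => emb_alg (u l)
  refine (hmany (∑ l, D l + ∑ l, (α l).den)).subset ?_
  rintro t ⟨htδ, hbad⟩
  refine ⟨htδ, ?_⟩
  rintro ⟨f, hf, W, hW, hWt, hp⟩
  apply hbad
  obtain ⟨p, hp, hpD, hdvd⟩ := hp 0
  have h1 : D (f 0) ≤ ∑ l, D l :=
    Finset.single_le_sum (f := D) (fun _ _ => Nat.zero_le _) (Finset.mem_univ (f 0))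
  have h2 : (α (f 0)).den ≤ ∑ l, (α l).den :=
    Finset.single_le_sum (f := fun l => (α l).den) (fun _ _ => Nat.zero_le _)
      (Finset.mem_univ (f 0))
  have : Fact p.Prime := ⟨hp⟩
  have hden : ¬ p ∣ (α (f 0)).den := by
    intro h
    have := Nat.le_of_dvd (α (f 0)).den_pos h
    omega
  obtain ⟨τ, hτ, hτt⟩ := hD (f 0) p (by omega) t W hW hWt (α (f 0)) hden hdvd
  have h3 := hu (f 0) p τ hden hτ t hτt
  rw [start_curve] at h3
  exact dml_cone t _ h3

/-- The origin is an étale preperiodic point. -/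
theorem etale_zero : EtalePreperiodicPoint 0 := by
  have h : ∀ n, phi^[n] 0 = 0 := by
    intro n
    induction n with
    | zero => rfl
    | succ n ih =>
      rw [Function.iterate_succ_apply', ih]
      funext i
      fin_cases i <;> simp [phi]
  refine ⟨0, 1, one_pos, by rw [h, h], fun n _ => ?_⟩
  rw [h]
  simp

end Pool.Agent.V1138.FP
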